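import Mathlib
import Pool.Graph.R_seed8.Helper304.Square

/-!
# Binary digits of the points of the cube `[0,1]^D`
-/

set_option autoImplicit false

namespace Pool.Agent.H39.AA.Cube

open MeasureTheory Filter Topology Set
open scoped ENNReal
open Pool.Agent.Helper304.Signs Pool.Agent.Helper304.Square

variable {D : ℕ}

/-- the coordinate of digit `J` -/
def co (hD : 0 < D) (J : ℕ) : Fin D := ⟨J % D, Nat.mod_lt _ hD⟩

/-- digits of the points of the cube -/
noncomputable def dg (hD : 0 < D) (J : ℕ) (p : Fin D → ℝ) : Bool := bit (J / D) (p (co hD J))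

lemma dg_meas (hD : 0 < D) (J : ℕ) : Measurable (dg hD J) := by
  unfold dg
  exact (bit_meas _).comp (measurable_pi_apply _)

/-- shift vector flipping digit `J` -/
noncomputable def shv (hD : 0 < D) (J : ℕ) : Fin D → ℝ := Pi.single (co hD J) (1 / 2 ^ (J / D + 1))

lemma dg_shift_self (hD : 0 < D) (J : ℕ) (p : Fin D → ℝ) : dg hD J (p + shv hD J) = !dg hD J p := by
  unfold dg shv
  rw [Pi.add_apply, Pi.single_eq_same]
  exact bit_shift_self _ _

lemma dg_shift_lt (hD : 0 < D) {J i : ℕ} {p : Fin D → ℝ} (h : dg hD J p = false) (hi : i < J) :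
    dg hD i (p + shv hD J) = dg hD i p := by
  unfold dg shv at *
  rw [Pi.add_apply]
  by_cases hc : co hD i = co hD J
  · rw [hc, Pi.single_eq_same]
    refine bit_shift_lt h ?_
    have hm : i % D = J % D := congrArg Fin.val hc
    have h1 := Nat.div_add_mod i D
    have h2 := Nat.div_add_mod J D
    by_contra hcon
    push Not at hcon
    have := Nat.mul_le_mul_left D hcon
    omega
  · rw [Pi.single_eq_of_ne hc, add_zero]

/-- the half open unit cube -/
def QQ (D : ℕ) : Set (Fin D → ℝ) := Set.pi univ fun _ => Ico 0 1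

lemma QQ_meas : MeasurableSet (QQ D) := MeasurableSet.univ_pi fun _ => measurableSet_Ico

lemma QQ_shift (hD : 0 < D) {J : ℕ} {p : Fin D → ℝ} (h : dg hD J p = false) :
    p + shv hD J ∈ QQ D ↔ p ∈ QQ D := by
  unfold QQ
  rw [mem_univ_pi, mem_univ_pi]
  refine forall_congr' fun i => ?_
  rw [Pi.add_apply]
  by_cases hc : i = co hD J
  · subst hc
    unfold shv
    rw [Pi.single_eq_same]
    exact mem_shift h
  · unfold shv
    rw [Pi.single_eq_of_ne hc, add_zero]

/-- Lebesgue measure on the unit cube -/
noncomputable def μC (D : ℕ) : Measure (Fin D → ℝ) := volume.restrict (Icc 0 1)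

lemma μC_eq : μC D = volume.restrict (QQ D) := by
  unfold μC QQ
  apply Measure.restrict_congr_set
  exact (Measure.univ_pi_Ico_ae_eq_Icc (f := (0 : Fin D → ℝ)) (g := 1)).symm

instance : IsProbabilityMeasure (μC D) := by
  constructor
  unfold μC
  rw [Measure.restrict_apply_univ, Real.volume_Icc_pi]
  simp

lemma pre_shift (hD : 0 < D) {J : ℕ} {p : Fin D → ℝ} (h : dg hD J p = false) :
    pre (dg hD) J (p + shv hD J) = pre (dg hD) J p := by
  funext i
  exact dg_shift_lt hD h i.2

theorem dg_sign (hD : 0 < D) : SignSystem (μC D) (dg hD) := by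
  refine ⟨dg_meas hD, fun J G => ?_⟩
  classical
  set F0 : (Fin D → ℝ) → ℝ := fun p => if dg hD J p = true then 0 else G (pre (dg hD) J p) with hF0
  set F1 : (Fin D → ℝ) → ℝ := fun p => if dg hD J p = true then G (pre (dg hD) J p) else 0 with hF1
  have hpre : Measurable (pre (dg hD) J) := measurable_pi_lambda _ fun i => dg_meas hD i
  have hG : Measurable fun p => G (pre (dg hD) J p) :=
    (Measurable.of_discrete (f := G)).comp hpre
  have hset : MeasurableSet {p | dg hD J p = true} := (dg_meas hD J) (measurableSet_singleton true)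
  have hbd : ∀ w, |G w| ≤ ∑ w, |G w| := fun w =>
    Finset.single_le_sum (f := fun w => |G w|) (fun _ _ => abs_nonneg _) (Finset.mem_univ _)
  have hbd0 : 0 ≤ ∑ w, |G w| := Finset.sum_nonneg fun _ _ => abs_nonneg _
  have hi0 : Integrable F0 (μC D) := by
    refine Integrable.of_bound (Measurable.ite hset measurable_const hG).aestronglyMeasurable
      (∑ w, |G w|) (ae_of_all _ fun p => ?_)
    simp only [hF0]
    rw [Real.norm_eq_abs]
    split_ifs
    · rw [abs_zero]; exact hbd0
    · exact hbd _
  have hi1 : Integrable F1 (μC D) := by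
    refine Integrable.of_bound (Measurable.ite hset hG measurable_const).aestronglyMeasurable
      (∑ w, |G w|) (ae_of_all _ fun p => ?_)
    simp only [hF1]
    rw [Real.norm_eq_abs]
    split_ifs
    · exact hbd _
    · rw [abs_zero]; exact hbd0
  have h1 : ∀ p, sg (dg hD J p) * G (pre (dg hD) J p) = F0 p - F1 p := by
    intro p
    simp only [hF0, hF1]
    cases dg hD J p <;> simp [sg]
  simp only [h1]
  rw [integral_sub hi0 hi1, sub_eq_zero, μC_eq, ← integral_indicator QQ_meas,
    ← integral_indicator QQ_meas]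
  rw [← integral_add_right_eq_self (μ := (volume : Measure (Fin D → ℝ)))
    ((QQ D).indicator F1) (shv hD J)]
  congr 1
  funext p
  cases h : dg hD J p
  · have e1 := dg_shift_self hD J p
    rw [h, Bool.not_false] at e1
    have e2 := QQ_shift hD h
    have e3 := pre_shift hD h
    by_cases hp : p ∈ QQ D
    · rw [indicator_of_mem hp, indicator_of_mem (e2.2 hp)]
      simp only [hF0, hF1, e1, h, e3]
      simp
    · rw [indicator_of_notMem hp, indicator_of_notMem (fun h => hp (e2.1 h))]
  · have e1 := dg_shift_self hD J p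
    rw [h, Bool.not_true] at e1
    have e4 : F0 p = 0 := by simp only [hF0, h]; simp
    have e5 : F1 (p + shv hD J) = 0 := by simp only [hF1, e1]; simp
    rw [indicator_apply, indicator_apply, e4, e5]
    simp

/-! ### The digits generate -/

/-- the floors are functions of the digits -/
lemma exists_code (hD : 0 < D) (n : ℕ) : ∃ c : (Fin (D * n) → Bool) → (Fin D → ℤ), ∀ p ∈ QQ D,
    c (pre (dg hD) (D * n) p) = fun i => ⌊(2:ℝ) ^ n * p i⌋ := by
  induction n with
  | zero =>
    refine ⟨fun _ _ => 0, fun p hp => ?_⟩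
    rw [QQ, mem_univ_pi] at hp
    funext i
    symm
    rw [pow_zero, one_mul, Int.floor_eq_zero_iff]
    exact hp i
  | succ n ih =>
    obtain ⟨c, hc⟩ := ih
    have hlt : ∀ i : Fin D, D * n + i < D * (n + 1) := fun i => by
      rw [Nat.mul_succ]; exact Nat.add_lt_add_left i.2 _
    have hle : D * n ≤ D * (n + 1) := Nat.mul_le_mul_left D (Nat.le_succ n)
    refine ⟨fun w i => 2 * (c fun j => w ⟨j, j.2.trans_le hle⟩) i +
      (if w ⟨D * n + i, hlt i⟩ = true then 1 else 0), fun p hp => ?_⟩
    have h1 : (fun j : Fin (D * n) => pre (dg hD) (D * (n + 1)) p ⟨j, j.2.trans_le hle⟩) =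
        pre (dg hD) (D * n) p := rfl
    have h2 : ∀ i : Fin D, pre (dg hD) (D * (n + 1)) p ⟨D * n + i, hlt i⟩ = bit n (p i) := by
      intro i
      simp only [pre, dg]
      have e1 : (D * n + (i : ℕ)) / D = n := by
        rw [Nat.mul_add_div hD, Nat.div_eq_of_lt i.2, add_zero]
      have e2 : co hD (D * n + (i : ℕ)) = i := by
        apply Fin.ext
        simp only [co]
        rw [Nat.mul_add_mod, Nat.mod_eq_of_lt i.2]
      rw [e1, e2]
    have key : ∀ x : ℝ, 2 * ⌊(2:ℝ) ^ n * x⌋ + (if bit n x = true then 1 else 0) =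
        ⌊(2:ℝ) ^ (n + 1) * x⌋ := by
      intro x
      rw [floor_pow n x]
      cases h : bit n x
      · rw [bit_false] at h
        obtain ⟨m, hm⟩ := h
        rw [hm]
        simp only [Bool.false_eq_true, if_false]
        omega
      · rw [bit_true] at h
        obtain ⟨m, hm⟩ := h
        rw [hm]
        simp only [if_true]
        omega
    funext i
    simp only [h1, h2, hc p hp, key]

theorem dg_gen (hD : 0 < D) (f : (Fin D → ℝ) → ℝ) (hf : MemLp f 2 (μC D))
    (h : ∀ (J : ℕ) (G : (Fin J → Bool) → ℝ), ∫ p, f p * G (pre (dg hD) J p) ∂(μC D) = 0) :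
    f =ᵐ[μC D] 0 := by
  classical
  have hfi : Integrable f (μC D) := hf.integrable (by norm_num)
  have htot : ∫ p, f p ∂(μC D) = 0 := by
    have := h 0 (fun _ => 1)
    simpa using this
  apply hfi.ae_eq_zero_of_forall_setIntegral_eq_zero
  intro S hS _
  have hgen : (inferInstance : MeasurableSpace (Fin D → ℝ)) =
      MeasurableSpace.generateFrom (Set.pi univ '' Set.pi univ fun _ : Fin D => DI) :=
    (generateFrom_eq_pi (fun _ => DI_gen) (fun _ => DI_span)).symm
  have hpi : IsPiSystem (Set.pi univ '' Set.pi univ fun _ : Fin D => DI) :=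
    IsPiSystem.pi fun _ => isPiSystem_Ico_mem Dy Dy
  refine MeasurableSpace.induction_on_inter (C := fun S _ => ∫ p in S, f p ∂(μC D) = 0)
    hgen hpi ?_ ?_ ?_ ?_ S hS
  · simp
  · rintro _ ⟨s, hs, rfl⟩
    rw [mem_univ_pi] at hs
    choose l hl u hu hlu hs' using hs
    choose nl hnl using fun i => Dy_level (hl i)
    choose nu hnu using fun i => Dy_level (hu i)
    set N := ∑ i, nl i + ∑ i, nu i with hN
    have hN1 : ∀ i, nl i ≤ N := fun i =>
      (Finset.single_le_sum (f := nl) (fun _ _ => Nat.zero_le _) (Finset.mem_univ i)).trans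
        (Nat.le_add_right _ _)
    have hN2 : ∀ i, nu i ≤ N := fun i =>
      (Finset.single_le_sum (f := nu) (fun _ _ => Nat.zero_le _) (Finset.mem_univ i)).trans
        (Nat.le_add_left _ _)
    choose k1 hk1 using fun i => hnl i N (hN1 i)
    choose k2 hk2 using fun i => hnu i N (hN2 i)
    obtain ⟨c, hc⟩ := exists_code hD N
    set G : (Fin (D * N) → Bool) → ℝ := fun w =>
      if (∀ i, k1 i ≤ c w i ∧ c w i < k2 i) then 1 else 0 with hG
    have hm : MeasurableSet (Set.pi univ s) :=
      MeasurableSet.univ_pi fun i => by rw [← hs' i]; exact measurableSet_Ico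
    rw [← h (D * N) G, ← integral_indicator hm, μC_eq]
    refine setIntegral_congr_fun QQ_meas fun p hp => ?_
    have h2 : (0:ℝ) < 2 ^ N := by positivity
    have hiff : p ∈ Set.pi univ s ↔
        ∀ i, k1 i ≤ c (pre (dg hD) (D * N) p) i ∧ c (pre (dg hD) (D * N) p) i < k2 i := by
      rw [hc p hp, mem_univ_pi]
      refine forall_congr' fun i => ?_
      rw [← hs' i, mem_Ico, hk1 i, hk2 i]
      dsimp only
      rw [Int.le_floor, Int.floor_lt, div_le_iff₀ h2, lt_div_iff₀ h2, mul_comm (p i)]
    rw [indicator_apply]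
    simp only [hG, hiff]
    split_ifs
    · rw [mul_one]
    · rw [mul_zero]
  · intro t htm ht
    have := integral_add_compl htm hfi
    rw [ht, zero_add, htot] at this
    exact this
  · intro F hd hm hF
    have := hasSum_integral_iUnion hm hd hfi.integrableOn
    simp only [hF] at this
    exact this.unique hasSum_zero

end Pool.Agent.H39.AA.Cube
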