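import Mathlib
import Pool.Graph.R_seed8.Helper304.Assembly

/-!
# The fourth moment maximal inequality for rectangular partial sums in `d` parameters
-/

set_option autoImplicit false

namespace Pool.Agent.H39.AA

open MeasureTheory Filter Topology
open scoped ENNReal
open Pool.Agent.Helper304.MaxIneq

variable {d : ℕ}

/-- the box `∏ [lo i, hi i)` -/
def box (lo hi : Fin d → ℕ) : Finset (Fin d → ℕ) :=
  Fintype.piFinset fun i => Finset.Ico (lo i) (hi i)

lemma mem_box {lo hi p : Fin d → ℕ} : p ∈ box lo hi ↔ ∀ i, lo i ≤ p i ∧ p i < hi i := by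
  simp [box, Fintype.mem_piFinset, Finset.mem_Ico]

lemma mem_box_update {lo hi p : Fin d → ℕ} {j : Fin d} {a b : ℕ} :
    p ∈ box (Function.update lo j a) (Function.update hi j b) ↔
      (a ≤ p j ∧ p j < b) ∧ ∀ i, i ≠ j → lo i ≤ p i ∧ p i < hi i := by
  rw [mem_box]
  constructor
  · intro h
    refine ⟨by simpa using h j, fun i hi => by simpa [hi] using h i⟩
  · rintro ⟨h1, h2⟩ i
    by_cases hi : i = j
    · subst hi; simpa using h1
    · simpa [hi] using h2 i hi

lemma sum_box_split {R : Type*} [AddCommMonoid R] (F : (Fin d → ℕ) → R) (lo hi : Fin d → ℕ)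
    (j : Fin d) {a b c : ℕ} (hab : a ≤ b) (hbc : b ≤ c) :
    ∑ p ∈ box (Function.update lo j a) (Function.update hi j c), F p =
      ∑ p ∈ box (Function.update lo j a) (Function.update hi j b), F p +
        ∑ p ∈ box (Function.update lo j b) (Function.update hi j c), F p := by
  have hdisj : Disjoint (box (Function.update lo j a) (Function.update hi j b))
      (box (Function.update lo j b) (Function.update hi j c)) := by
    rw [Finset.disjoint_left]
    intro p h1 h2
    have e1 := (mem_box_update.1 h1).1.2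
    have e2 := (mem_box_update.1 h2).1.1
    omega
  rw [← Finset.sum_union hdisj]
  refine Finset.sum_congr ?_ fun _ _ => rfl
  ext p
  rw [Finset.mem_union, mem_box_update, mem_box_update, mem_box_update]
  constructor
  · rintro ⟨h1, h2⟩
    by_cases hp : p j < b
    · exact Or.inl ⟨⟨h1.1, hp⟩, h2⟩
    · exact Or.inr ⟨⟨not_lt.1 hp, h1.2⟩, h2⟩
  · rintro (⟨h1, h2⟩ | ⟨h1, h2⟩)
    · exact ⟨⟨h1.1, by omega⟩, h2⟩
    · exact ⟨⟨by omega, h1.2⟩, h2⟩

lemma box_update_empty (lo hi : Fin d → ℕ) (j : Fin d) (a : ℕ) :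
    box (Function.update lo j a) (Function.update hi j a) = ∅ := by
  rw [Finset.eq_empty_iff_forall_notMem]
  intro p hp
  have := (mem_box_update.1 hp).1
  omega

lemma sum_box_slices (F : (Fin d → ℕ) → ℝ) (lo hi : Fin d → ℕ) (j : Fin d) (a n : ℕ) :
    ∑ p ∈ box (Function.update lo j a) (Function.update hi j (a + n)), F p =
      ∑ i ∈ Finset.Ico a (a + n),
        ∑ p ∈ box (Function.update lo j i) (Function.update hi j (i + 1)), F p := by
  induction n with
  | zero => simp [box_update_empty]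
  | succ n ih =>
    rw [← add_assoc, Finset.sum_Ico_succ_top (by omega), ← ih,
      sum_box_split F lo hi j (show a ≤ a + n by omega) (show a + n ≤ a + n + 1 by omega)]

/-- fourth moment property, any index set -/
def FourMI {I Ω : Type*} [MeasurableSpace Ω] (μ : Measure Ω) (y : I → Ω → ℝ) : Prop :=
  ∀ (a : I → ℝ) (s : Finset I),
    ∫⁻ ω, ‖∑ p ∈ s, a p * y p ω‖ₑ ^ 4 ∂μ ≤ ENNReal.ofReal (3 * (∑ p ∈ s, a p ^ 2) ^ 2)

/-- partial sums over boxes -/
def S {Ω : Type*} (y : (Fin d → ℕ) → Ω → ℝ) (a : (Fin d → ℕ) → ℝ) (lo hi : Fin d → ℕ) (ω : Ω) : ℝ :=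
  ∑ p ∈ box lo hi, a p * y p ω

/-- upper corners: free up to `M` in the first `j` coordinates, equal to `hi` in the others -/
def Bs (j : ℕ) (M hi : Fin d → ℕ) : Finset (Fin d → ℕ) :=
  Fintype.piFinset fun i => if (i : ℕ) < j then Finset.Icc 0 (M i) else {hi i}

lemma mem_Bs {j : ℕ} {M hi n : Fin d → ℕ} :
    n ∈ Bs j M hi ↔ (∀ i : Fin d, (i : ℕ) < j → n i ≤ M i) ∧
      ∀ i : Fin d, ¬ (i : ℕ) < j → n i = hi i := by
  unfold Bs
  rw [Fintype.mem_piFinset]
  constructor
  · intro h
    refine ⟨fun i hi => ?_, fun i hi => ?_⟩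
    · have := h i
      rw [if_pos hi, Finset.mem_Icc] at this
      exact this.2
    · have := h i
      rwa [if_neg hi, Finset.mem_singleton] at this
  · rintro ⟨h1, h2⟩ i
    split_ifs with hi
    · exact Finset.mem_Icc.2 ⟨Nat.zero_le _, h1 i hi⟩
    · exact Finset.mem_singleton.2 (h2 i hi)

/-- maximal function -/
noncomputable def U {Ω : Type*} (y : (Fin d → ℕ) → Ω → ℝ) (a : (Fin d → ℕ) → ℝ) (j : ℕ)
    (M lo hi : Fin d → ℕ) (ω : Ω) : ℝ≥0∞ := ⨆ n ∈ Bs j M hi, ‖S y a lo n ω‖ₑ

/-- the largest upper corner -/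
def cap (j : ℕ) (M hi : Fin d → ℕ) : Fin d → ℕ := fun i => if (i : ℕ) < j then M i else hi i

section

variable {Ω : Type*} [MeasurableSpace Ω] {μ : Measure Ω} {y : (Fin d → ℕ) → Ω → ℝ}

lemma S_meas (hy : ∀ p, Measurable (y p)) (a : (Fin d → ℕ) → ℝ) (lo hi : Fin d → ℕ) :
    Measurable (S y a lo hi) := by
  unfold S
  exact Finset.measurable_sum _ fun p _ => (hy p).const_mul _

lemma U_meas (hy : ∀ p, Measurable (y p)) (a : (Fin d → ℕ) → ℝ) (j : ℕ) (M lo hi : Fin d → ℕ) :
    Measurable (U y a j M lo hi) := by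
  unfold U
  exact Measurable.iSup fun n => Measurable.iSup fun _ => (S_meas hy a lo n).enorm

theorem U_bound (hy : ∀ p, Measurable (y p)) (h4 : FourMI μ y) (a : (Fin d → ℕ) → ℝ)
    (M : Fin d → ℕ) : ∀ j, j ≤ d → ∀ lo hi : Fin d → ℕ, (∀ i : Fin d, (i : ℕ) < j → lo i = 0) →
      ∫⁻ ω, (U y a j M lo hi ω) ^ 4 ∂μ ≤
        ENNReal.ofReal (2000 ^ j * 3 * (∑ p ∈ box lo (cap j M hi), a p ^ 2) ^ 2) := by
  intro j
  induction j with
  | zero =>
    intro _ lo hi _
    have hB : Bs 0 M hi = {hi} := by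
      ext n
      rw [mem_Bs, Finset.mem_singleton]
      constructor
      · intro h
        funext i
        exact h.2 i (by omega)
      · rintro rfl
        exact ⟨fun i hi => absurd hi (by omega), fun _ _ => rfl⟩
    have hcap : cap 0 M hi = hi := by
      funext i
      simp [cap]
    rw [hcap]
    have : ∀ ω, U y a 0 M lo hi ω = ‖∑ p ∈ box lo hi, a p * y p ω‖ₑ := by
      intro ω
      unfold U
      rw [hB]
      simp [S]
    simp only [this]
    refine (h4 a _).trans (le_of_eq ?_)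
    norm_num
  | succ j ih =>
    intro hj lo hi hlo
    set jj : Fin d := ⟨j, by omega⟩ with hjj
    have hloj : lo jj = 0 := hlo jj (by simp [hjj])
    have hne : ∀ i : Fin d, (i : ℕ) < j → i ≠ jj := by
      rintro i hi rfl
      simp [hjj] at hi
    have hcapu : ∀ b, cap j M (Function.update hi jj b) = Function.update (cap j M hi) jj b := by
      intro b
      funext i
      by_cases hi' : i = jj
      · subst hi'
        simp [cap, hjj]
      · simp [cap, hi']
    have hcap1 : cap (j + 1) M hi = Function.update (cap j M hi) jj (M jj) := by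
      funext i
      by_cases hi' : i = jj
      · subst hi'
        simp [cap, hjj]
      · have : (i : ℕ) ≠ j := fun h => hi' (Fin.ext h)
        by_cases h1 : (i : ℕ) < j
        · simp [cap, hi', h1, Nat.lt_succ_of_lt h1]
        · have h2 : ¬ (i : ℕ) < j + 1 := by omega
          simp [cap, hi', h1, h2]
    set D : ℕ → ℕ → Ω → ℝ≥0∞ := fun p q ω =>
      U y a j M (Function.update lo jj p) (Function.update hi jj q) ω with hD
    have key := bisection μ D (fun p q => U_meas hy a j M _ _)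
      (by
        intro p q r hpq hqr ω
        simp only [hD]
        unfold U
        refine iSup₂_le fun n hn => ?_
        have hnj : n jj = r := by
          have := (mem_Bs.1 hn).2 jj (by simp [hjj])
          simpa using this
        have hsplit : S y a (Function.update lo jj p) n ω =
            S y a (Function.update lo jj p) (Function.update n jj q) ω +
              S y a (Function.update lo jj q) n ω := by
          have := sum_box_split (fun p => a p * y p ω) lo n jj hpq hqr
          have hn' : Function.update n jj r = n := by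
            rw [← hnj, Function.update_eq_self]
          rw [hn'] at this
          exact this
        rw [hsplit]
        refine (enorm_add_le _ _).trans ?_
        refine add_le_add ?_ ?_
        · refine le_iSup₂_of_le (f := fun n _ => ‖S y a (Function.update lo jj p) n ω‖ₑ)
            (Function.update n jj q) ?_ le_rfl
          rw [mem_Bs] at hn ⊢
          refine ⟨fun i hi' => ?_, fun i hi' => ?_⟩
          · rw [Function.update_of_ne (hne i hi')]
            exact hn.1 i hi'
          · by_cases h : i = jj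
            · subst h; simp
            · rw [Function.update_of_ne h, Function.update_of_ne h]
              have := hn.2 i hi'
              rwa [Function.update_of_ne h] at this
        · exact le_iSup₂_of_le (f := fun n _ => ‖S y a (Function.update lo jj q) n ω‖ₑ)
            n hn le_rfl)
      (fun i => ∑ p ∈ box (Function.update lo jj i)
        (Function.update (cap j M hi) jj (i + 1)), a p ^ 2)
      (fun i => Finset.sum_nonneg fun _ _ => sq_nonneg _) (2000 ^ j * 3) (by positivity)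
      (by
        intro p q hpq
        refine (ih (by omega) (Function.update lo jj p) (Function.update hi jj q) ?_).trans ?_
        · intro i hi'
          rw [Function.update_of_ne (hne i hi')]
          exact hlo i (by omega)
        · rw [hcapu]
          obtain ⟨n, rfl⟩ := Nat.exists_eq_add_of_le hpq
          rw [sum_box_slices (fun p => a p ^ 2)])
      (M jj) 0 (M jj) (by omega) (Nat.zero_le _)
    have h1 : ∀ ω, U y a (j + 1) M lo hi ω ≤ ⨆ k ∈ Finset.Icc 0 (M jj), D 0 k ω := by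
      intro ω
      unfold U
      refine iSup₂_le fun n hn => ?_
      rw [mem_Bs] at hn
      refine le_iSup₂_of_le (n jj) (Finset.mem_Icc.2 ⟨Nat.zero_le _, hn.1 jj (by simp [hjj])⟩) ?_
      simp only [hD]
      have hl : Function.update lo jj 0 = lo := by
        rw [← hloj, Function.update_eq_self]
      rw [hl]
      unfold U
      refine le_iSup₂_of_le (f := fun n _ => ‖S y a lo n ω‖ₑ) n ?_ le_rfl
      rw [mem_Bs]
      refine ⟨fun i hi' => hn.1 i (by omega), fun i hi' => ?_⟩
      by_cases h : i = jj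
      · subst h; simp
      · rw [Function.update_of_ne h]
        refine hn.2 i ?_
        intro h2
        exact h (Fin.ext (by simp [hjj]; omega))
    refine (lintegral_mono fun ω => ?_).trans (key.trans ?_)
    · dsimp only
      gcongr
      exact h1 ω
    · have hsum := sum_box_slices (fun p => a p ^ 2) lo (cap j M hi) jj 0 (M jj)
      rw [zero_add] at hsum
      rw [← hsum, ← hcap1]
      have hl : Function.update lo jj 0 = lo := by
        rw [← hloj, Function.update_eq_self]
      rw [hl]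
      refine ENNReal.ofReal_le_ofReal (le_of_eq ?_)
      ring

/-- truncated array -/
def trd (a : (Fin d → ℕ) → ℝ) (N : ℕ) (p : Fin d → ℕ) : ℝ := by
  classical
  exact if ∀ i, p i < N then 0 else a p

lemma S_trd (a : (Fin d → ℕ) → ℝ) (N : ℕ) (n : Fin d → ℕ) (hn : ∀ i, N ≤ n i) (ω : Ω) :
    S y (trd a N) 0 n ω = S y a 0 n ω - S y a 0 (fun _ => N) ω := by
  classical
  unfold S
  have hsub : box (0 : Fin d → ℕ) (fun _ => N) ⊆ box 0 n := by
    intro p hp
    rw [mem_box] at hp ⊢
    exact fun i => ⟨(hp i).1, (hp i).2.trans_le (hn i)⟩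
  rw [← Finset.sum_sdiff hsub, ← Finset.sum_sdiff (f := fun p => a p * y p ω) hsub]
  have h1 : ∑ p ∈ box (0 : Fin d → ℕ) (fun _ => N), trd a N p * y p ω = 0 := by
    refine Finset.sum_eq_zero fun p hp => ?_
    rw [mem_box] at hp
    have : trd a N p = 0 := by
      unfold trd
      rw [if_pos fun i => (hp i).2]
    rw [this, zero_mul]
  rw [h1, add_zero, add_sub_cancel_right]
  refine Finset.sum_congr rfl fun p hp => ?_
  rw [Finset.mem_sdiff, mem_box, mem_box] at hp
  have : trd a N p = a p := by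
    unfold trd
    rw [if_neg fun h => hp.2 fun i => ⟨Nat.zero_le _, h i⟩]
  rw [this]

/-- the maximal function of the tail -/
noncomputable def Wd (y : (Fin d → ℕ) → Ω → ℝ) (a : (Fin d → ℕ) → ℝ) (N : ℕ) (ω : Ω) : ℝ≥0∞ :=
  ⨆ M : ℕ, U y (trd a N) d (fun _ => M) 0 0 ω

lemma Wd_le (a : (Fin d → ℕ) → ℝ) (N : ℕ) (n : Fin d → ℕ) (hn : ∀ i, N ≤ n i) (ω : Ω) :
    ‖S y a 0 n ω - S y a 0 (fun _ => N) ω‖ₑ ≤ Wd y a N ω := by
  rw [← S_trd a N n hn]
  unfold Wd
  refine le_iSup_of_le (∑ i, n i) ?_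
  unfold U
  refine le_iSup₂_of_le (f := fun n _ => ‖S y (trd a N) 0 n ω‖ₑ) n ?_ le_rfl
  rw [mem_Bs]
  exact ⟨fun i _ => Finset.single_le_sum (f := n) (fun _ _ => Nat.zero_le _) (Finset.mem_univ i),
    fun i hi => absurd i.2 hi⟩

lemma Wd_meas (hy : ∀ p, Measurable (y p)) (a : (Fin d → ℕ) → ℝ) (N : ℕ) :
    Measurable (Wd y a N) := by
  unfold Wd
  exact Measurable.iSup fun M => U_meas hy _ _ _ _ _

lemma Wd_bound (hy : ∀ p, Measurable (y p)) (h4 : FourMI μ y) (a : (Fin d → ℕ) → ℝ) (N : ℕ)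
    (t : ℝ) (ht : ∀ s : Finset (Fin d → ℕ), ∑ p ∈ s, (trd a N p) ^ 2 ≤ t) :
    ∫⁻ ω, (Wd y a N ω) ^ 4 ∂μ ≤ ENNReal.ofReal (2000 ^ d * 3 * t ^ 2) := by
  have hpow : ∀ ω, (Wd y a N ω) ^ 4 = ⨆ M : ℕ, (U y (trd a N) d (fun _ => M) 0 0 ω) ^ 4 := by
    intro ω
    unfold Wd
    rw [ENNReal.iSup_pow_of_ne_zero (by norm_num)]
  simp only [hpow]
  rw [lintegral_iSup]
  · refine iSup_le fun M => (U_bound hy h4 (trd a N) (fun _ => M) d le_rfl 0 0
      (fun _ _ => rfl)).trans (ENNReal.ofReal_le_ofReal ?_)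
    have h1 := ht (box 0 (cap d (fun _ => M) 0))
    have h2 : 0 ≤ ∑ p ∈ box 0 (cap d (fun _ : Fin d => M) 0), (trd a N p) ^ 2 :=
      Finset.sum_nonneg fun p _ => sq_nonneg _
    gcongr
  · intro M
    exact (U_meas hy _ _ _ _ _).pow_const 4
  · intro M M' hMM' ω
    dsimp only
    gcongr ?_ ^ 4
    unfold U
    refine iSup₂_le fun n hn => ?_
    refine le_iSup₂_of_le (f := fun n _ => ‖S y (trd a N) 0 n ω‖ₑ) n ?_ le_rfl
    rw [mem_Bs] at hn ⊢
    exact ⟨fun i hi => (hn.1 i hi).trans hMM', hn.2⟩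

lemma tail_le_d (a : (Fin d → ℕ) → ℝ) (ha : Summable fun p => a p ^ 2) (N : ℕ)
    (s : Finset (Fin d → ℕ)) :
    ∑ p ∈ s, (trd a N p) ^ 2 ≤
      (∑' p, a p ^ 2) - ∑ p ∈ box (0 : Fin d → ℕ) (fun _ => N), a p ^ 2 := by
  classical
  have h2 : ∑ p ∈ s, (trd a N p) ^ 2 ≤ ∑ p ∈ s \ box 0 (fun _ => N), a p ^ 2 := by
    rw [← Finset.sum_filter_add_sum_filter_not s (fun p => ∀ i, p i < N)]
    have h3 : ∑ p ∈ s with (∀ i, p i < N), (trd a N p) ^ 2 = 0 := by
      refine Finset.sum_eq_zero fun p hp => ?_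
      rw [Finset.mem_filter] at hp
      unfold trd
      rw [if_pos hp.2]
      norm_num
    rw [h3, zero_add]
    refine le_of_eq (Finset.sum_congr ?_ ?_)
    · ext p
      rw [Finset.mem_filter, Finset.mem_sdiff, mem_box]
      constructor
      · rintro ⟨h1, h2⟩
        exact ⟨h1, fun h => h2 fun i => (h i).2⟩
      · rintro ⟨h1, h2⟩
        exact ⟨h1, fun h => h2 fun i => ⟨Nat.zero_le _, h i⟩⟩
    · intro p hp
      rw [Finset.mem_sdiff, mem_box] at hp
      unfold trd
      rw [if_neg fun h => hp.2 fun i => ⟨Nat.zero_le _, h i⟩]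
  have h1 : ∑ p ∈ s \ box 0 (fun _ => N), a p ^ 2 + ∑ p ∈ box (0 : Fin d → ℕ) (fun _ => N), a p ^ 2
      = ∑ p ∈ s ∪ box 0 (fun _ => N), a p ^ 2 := by
    rw [← Finset.sum_union (Finset.sdiff_disjoint), Finset.sdiff_union_self_eq_union]
  have h4 := ha.sum_le_tsum (s ∪ box 0 (fun _ => N)) (fun p _ => sq_nonneg _)
  linarith

theorem S_converges (hy : ∀ p, Measurable (y p)) (h4 : FourMI μ y) (a : (Fin d → ℕ) → ℝ)
    (ha : Summable fun p => a p ^ 2) :
    ∀ᵐ ω ∂μ, ∃ s, Tendsto (fun n : Fin d → ℕ => S y a 0 n ω) atTop (𝓝 s) := by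
  classical
  set t : ℕ → ℝ := fun N => (∑' p, a p ^ 2) - ∑ p ∈ box (0 : Fin d → ℕ) (fun _ => N), a p ^ 2
    with ht
  have htt : Tendsto t atTop (𝓝 0) := by
    have h1 : Tendsto (fun N : ℕ => ∑ p ∈ box (0 : Fin d → ℕ) (fun _ => N), a p ^ 2) atTop
        (𝓝 (∑' p, a p ^ 2)) := by
      refine ha.hasSum.comp (tendsto_atTop_finset_of_monotone ?_ ?_)
      · intro N N' h p hp
        rw [mem_box] at hp ⊢
        exact fun i => ⟨(hp i).1, (hp i).2.trans_le h⟩
      · intro p
        refine ⟨(∑ i, p i) + 1, ?_⟩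
        rw [mem_box]
        exact fun i => ⟨Nat.zero_le _, Nat.lt_succ_of_le
          (Finset.single_le_sum (f := p) (fun _ _ => Nat.zero_le _) (Finset.mem_univ i))⟩
    have := (tendsto_const_nhds (x := ∑' p, a p ^ 2)).sub h1
    simpa using this
  have hbound : ∀ N, ∫⁻ ω, (Wd y a N ω) ^ 4 ∂μ ≤ ENNReal.ofReal (2000 ^ d * 3 * (t N) ^ 2) :=
    fun N => Wd_bound hy h4 a N (t N) (tail_le_d a ha N)
  have hinf : ∫⁻ ω, (⨅ N, Wd y a N ω) ^ 4 ∂μ = 0 := by
    refine le_antisymm ?_ bot_le
    have h1 : Tendsto (fun N => ENNReal.ofReal (2000 ^ d * 3 * (t N) ^ 2)) atTop (𝓝 0) := by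
      have : Tendsto (fun N => 2000 ^ d * 3 * (t N) ^ 2) atTop (𝓝 0) := by
        simpa using (htt.pow 2).const_mul (2000 ^ d * 3 : ℝ)
      have := ENNReal.tendsto_ofReal this
      simpa using this
    refine ge_of_tendsto' h1 fun N => ?_
    refine le_trans (lintegral_mono fun ω => ?_) (hbound N)
    dsimp only
    gcongr
    exact iInf_le _ N
  rw [lintegral_eq_zero_iff ((Measurable.iInf fun N => Wd_meas hy a N).pow_const 4)] at hinf
  filter_upwards [hinf] with ω hω
  have h0 : (⨅ N, Wd y a N ω) = 0 := by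
    simpa using hω
  have hc : CauchySeq (fun n : Fin d → ℕ => S y a 0 n ω) := by
    rw [EMetric.cauchySeq_iff']
    intro ε hε
    have : (⨅ N, Wd y a N ω) < ε := by rw [h0]; exact hε
    obtain ⟨N, hN⟩ := iInf_lt_iff.1 this
    refine ⟨fun _ => N, fun q hq => ?_⟩
    rw [edist_eq_enorm_sub]
    exact (Wd_le a N q hq ω).trans_lt hN
  exact cauchySeq_tendsto_of_complete hc

end

end Pool.Agent.H39.AA
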