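import Mathlib
import Pool.Agent.H39.AA.MaxD

/-!
# One bounded complete system for all multiplicities
-/

set_option autoImplicit false

namespace Pool.Agent.H39.AA

open MeasureTheory Filter Topology
open scoped ENNReal
open Pool.Agent.Helper304.Signs Pool.Agent.Helper304.Basis Pool.Agent.Helper304.Blocks
open Pool.Agent.Helper304.MaxIneq Pool.Agent.Helper304.Assembly

variable {d : ℕ}

/-- a chain in `ℕ^d` -/
def ch (d : ℕ) (k : ℕ) : Fin d → ℕ := fun _ => 2 * k

lemma ch_inj (h1 : 0 < d) : Function.Injective (ch d) := by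
  intro k l h
  have := congrFun h ⟨0, h1⟩
  simp only [ch] at this
  omega

lemma exists_eI (h1 : 0 < d) : ∃ e : (Fin d → ℕ) ≃ ℕ × ℕ, (∀ k, e (ch d k) = (k, k)) ∧
    ∀ p, (∀ k, p ≠ ch d k) → (e p).1 ≠ (e p).2 := by
  classical
  let A : Set (Fin d → ℕ) := Set.range (ch d)
  let B : Set (ℕ × ℕ) := {q | q.1 = q.2}
  have hA : Infinite (Aᶜ : Set (Fin d → ℕ)) := by
    have hmem : ∀ n : ℕ, (fun _ : Fin d => 2 * n + 1) ∈ Aᶜ := by
      rintro n ⟨k, hk⟩
      have := congrFun hk ⟨0, h1⟩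
      simp only [ch] at this
      omega
    refine Infinite.of_injective (fun n : ℕ => (⟨_, hmem n⟩ : (Aᶜ : Set (Fin d → ℕ)))) ?_
    intro n m h
    have := congrFun (congrArg Subtype.val h) ⟨0, h1⟩
    simp only at this
    omega
  have hB : Infinite (Bᶜ : Set (ℕ × ℕ)) := by
    have hmem : ∀ n : ℕ, ((0, n + 1) : ℕ × ℕ) ∈ Bᶜ := by
      intro n h
      simp [B] at h
    refine Infinite.of_injective (fun n : ℕ => (⟨_, hmem n⟩ : (Bᶜ : Set (ℕ × ℕ)))) ?_
    intro n m h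
    simpa using h
  obtain ⟨g⟩ : Nonempty ((Aᶜ : Set (Fin d → ℕ)) ≃ (Bᶜ : Set (ℕ × ℕ))) :=
    nonempty_equiv_of_countable
  let idx : (Fin d → ℕ) → ℕ × ℕ := fun p =>
    if h : p ∈ A then (p ⟨0, h1⟩ / 2, p ⟨0, h1⟩ / 2) else (g ⟨p, h⟩ : ℕ × ℕ)
  have e1 : ∀ k, idx (ch d k) = (k, k) := by
    intro k
    have : ch d k ∈ A := ⟨k, rfl⟩
    simp only [idx, dif_pos this]
    simp [ch]
  have e2 : ∀ p, p ∉ A → idx p ∉ B := by
    intro p hp
    simp only [idx, dif_neg hp]
    exact (g ⟨p, hp⟩).2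
  have hbij : Function.Bijective idx := by
    constructor
    · intro p p' h
      by_cases hp : p ∈ A
      · by_cases hp' : p' ∈ A
        · obtain ⟨k, rfl⟩ := hp
          obtain ⟨k', rfl⟩ := hp'
          rw [e1, e1, Prod.mk.injEq] at h
          rw [h.1]
        · exfalso
          apply e2 p' hp'
          rw [← h]
          obtain ⟨k, rfl⟩ := hp
          rw [e1]
          exact rfl
      · by_cases hp' : p' ∈ A
        · exfalso
          apply e2 p hp
          rw [h]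
          obtain ⟨k, rfl⟩ := hp'
          rw [e1]
          exact rfl
        · simp only [idx, dif_neg hp, dif_neg hp'] at h
          have := g.injective (Subtype.ext h)
          simpa using this
    · intro q
      by_cases hq : q ∈ B
      · refine ⟨ch d q.1, ?_⟩
        rw [e1]
        exact Prod.ext rfl hq
      · refine ⟨(g.symm ⟨q, hq⟩ : Fin d → ℕ), ?_⟩
        have : (g.symm ⟨q, hq⟩ : Fin d → ℕ) ∉ A := (g.symm ⟨q, hq⟩).2
        simp only [idx, dif_neg this]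
        simp
  refine ⟨Equiv.ofBijective idx hbij, e1, fun p hp => ?_⟩
  exact e2 p (by rintro ⟨k, rfl⟩; exact hp k rfl)

lemma fourMI_comp {X : Type*} [MeasurableSpace X] {μ : Measure X} {y : ℕ × ℕ → X → ℝ}
    (h : FourM μ y) (e : (Fin d → ℕ) ≃ ℕ × ℕ) : FourMI μ (fun p => y (e p)) := by
  intro a s
  have := h (fun q => a (e.symm q)) (s.map e.toEmbedding)
  simpa [Finset.sum_map] using this

lemma univ_ne (h1 : 0 < d) : (Finset.univ : Finset (Fin d)).Nonempty :=
  ⟨⟨0, h1⟩, Finset.mem_univ _⟩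

/-- number of members of the chain in a box -/
noncomputable def Kn (h1 : 0 < d) (m : Fin d → ℕ) : ℕ :=
  (Finset.univ.inf' (univ_ne h1) m + 1) / 2

lemma lt_Kn (h1 : 0 < d) (m : Fin d → ℕ) (k : ℕ) : k < Kn h1 m ↔ ∀ i, 2 * k < m i := by
  have h2 : (2 * k < Finset.univ.inf' (univ_ne h1) m) ↔ ∀ i, 2 * k < m i := by
    rw [Finset.lt_inf'_iff]
    simp
  rw [← h2]
  unfold Kn
  omega

lemma Kn_tendsto (h1 : 0 < d) : Tendsto (Kn h1) atTop atTop := by
  rw [tendsto_atTop]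
  intro b
  filter_upwards [eventually_ge_atTop (fun _ : Fin d => 2 * b + 1)] with m hm
  refine le_of_lt ((lt_Kn h1 m b).2 fun i => ?_)
  have := hm i
  simp only at this
  omega

lemma sum_chain (h1 : 0 < d) (e : (Fin d → ℕ) ≃ ℕ × ℕ) (he1 : ∀ k, e (ch d k) = (k, k))
    (he2 : ∀ p, (∀ k, p ≠ ch d k) → (e p).1 ≠ (e p).2) (a : (Fin d → ℕ) → ℝ) (z : ℕ → ℝ)
    (m : Fin d → ℕ) :
    ∑ p ∈ box 0 m, a p * (if (e p).1 = (e p).2 then z (e p).1 else 0) =
      ∑ k ∈ Finset.range (Kn h1 m), a (ch d k) * z k := by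
  classical
  have hsub : (Finset.range (Kn h1 m)).image (ch d) ⊆ box 0 m := by
    intro p hp
    rw [Finset.mem_image] at hp
    obtain ⟨k, hk, rfl⟩ := hp
    rw [Finset.mem_range, lt_Kn] at hk
    rw [mem_box]
    exact fun i => ⟨Nat.zero_le _, hk i⟩
  rw [← Finset.sum_subset hsub, Finset.sum_image (fun k _ l _ h => ch_inj h1 h)]
  · refine Finset.sum_congr rfl fun k _ => ?_
    rw [he1]
    simp
  · intro p hp hp'
    rw [if_neg, mul_zero]
    apply he2
    rintro k rfl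
    apply hp'
    rw [Finset.mem_image]
    refine ⟨k, ?_, rfl⟩
    rw [Finset.mem_range, lt_Kn]
    rw [mem_box] at hp
    exact fun i => (hp i).2

section

variable {X : Type*} [MeasurableSpace X] {μ : Measure X} [IsProbabilityMeasure μ]
  {dg : ℕ → X → Bool}

theorem multi_converges (hd : SignSystem μ dg) (H : ℕ → ℝ) (hH : ∀ B, 0 ≤ H B)
    (E : ℕ × ℕ ≃ ℕ) (hE1 : ∀ B, ¬ pw B → E (PP H hH B, PP H hH B) = B)
    (hE2 : ∀ q, (¬ ∃ B, ¬ pw B ∧ q = (PP H hH B, PP H hH B)) → pw (E q))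
    (h1 : 0 < d) (e : (Fin d → ℕ) ≃ ℕ × ℕ) (he1 : ∀ k, e (ch d k) = (k, k))
    (he2 : ∀ p, (∀ k, p ≠ ch d k) → (e p).1 ≠ (e p).2) (a : (Fin d → ℕ) → ℝ)
    (ha : Summable fun p => a p ^ 2) :
    ∀ᵐ x ∂μ, ∃ s, Tendsto (fun m : Fin d → ℕ =>
      ∑ p ∈ box 0 m, a p * phi H hH E dg (e p) x) atTop (𝓝 s) := by
  have hc : Summable fun k => (fun k => a (ch d k)) k ^ 2 :=
    ha.comp_injective (i := ch d) (ch_inj h1)
  filter_upwards [S_converges (y := fun p => yy H hH E dg (e p)) (fun p => yy_meas H hH E hd (e p))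
      (fourMI_comp (fourM_y H hH E hd) e) a ha,
    zz_converges H hH hd (fun k => a (ch d k)) hc] with x ⟨s, hs⟩ ⟨s', hs'⟩
  refine ⟨s + s', ?_⟩
  have h2 : ∀ m : Fin d → ℕ, ∑ p ∈ box 0 m, a p * phi H hH E dg (e p) x =
      S (fun p => yy H hH E dg (e p)) a 0 m x +
        ∑ k ∈ Finset.range (Kn h1 m), a (ch d k) * zz H hH dg k x := by
    intro m
    rw [← sum_chain h1 e he1 he2 a (fun k => zz H hH dg k x) m]
    unfold S
    rw [← Finset.sum_add_distrib]
    refine Finset.sum_congr rfl fun p _ => ?_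
    rw [phi_eq H hH E dg hE1 hE2]
    ring
  simp only [h2]
  exact hs.add (hs'.comp (Kn_tendsto h1))

end

/-- the part of a box in which the coordinates outside `T` are fixed -/
def face (T : Finset (Fin d)) (q m : Fin d → ℕ) : Finset (Fin d → ℕ) :=
  Fintype.piFinset fun i => if i ∈ T then Finset.range (m i) else {q i}

lemma mem_face {T : Finset (Fin d)} {q m p : Fin d → ℕ} :
    p ∈ face T q m ↔ (∀ i ∈ T, p i < m i) ∧ ∀ i ∉ T, p i = q i := by
  unfold face
  rw [Fintype.mem_piFinset]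
  constructor
  · intro h
    refine ⟨fun i hi => ?_, fun i hi => ?_⟩
    · have := h i
      rwa [if_pos hi, Finset.mem_range] at this
    · have := h i
      rwa [if_neg hi, Finset.mem_singleton] at this
  · rintro ⟨h1, h2⟩ i
    split_ifs with hi
    · exact Finset.mem_range.2 (h1 i hi)
    · exact Finset.mem_singleton.2 (h2 i hi)

/-- regular convergence from convergence over boxes for all coefficient arrays -/
theorem regular_of_pringsheim {X : Type*} [MeasurableSpace X] {μ : Measure X}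
    (φ : (Fin d → ℕ) → X → ℝ)
    (h : ∀ a : (Fin d → ℕ) → ℝ, (Summable fun p => a p ^ 2) → ∀ᵐ x ∂μ, ∃ s,
      Tendsto (fun m : Fin d → ℕ => ∑ p ∈ box 0 m, a p * φ p x) atTop (𝓝 s))
    (a : (Fin d → ℕ) → ℝ) (ha : Summable fun p => a p ^ 2) :
    ∀ᵐ x ∂μ, ∀ (T : Finset (Fin d)) (q : Fin d → ℕ), ∃ s,
      Tendsto (fun m : Fin d → ℕ => ∑ p ∈ face T q m, a p * φ p x) atTop (𝓝 s) := by
  classical
  rw [ae_all_iff]
  intro T
  rw [ae_all_iff]
  intro q
  have hs : Summable fun p : Fin d → ℕ => (if ∀ i ∉ T, p i = q i then a p else 0) ^ 2 := by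
    refine Summable.of_nonneg_of_le (fun _ => sq_nonneg _) (fun p => ?_) ha
    split_ifs
    · exact le_rfl
    · simpa using sq_nonneg (a p)
  filter_upwards [h _ hs] with x ⟨s, hs⟩
  refine ⟨s, ?_⟩
  set Mm : (Fin d → ℕ) → (Fin d → ℕ) := fun m i => if i ∈ T then m i else m i + q i + 1 with hMm
  have hcomp : Tendsto Mm atTop atTop := by
    refine tendsto_atTop_mono (fun m i => ?_) tendsto_id
    simp only [hMm, id]
    split_ifs <;> omega
  refine (hs.comp hcomp).congr fun m => ?_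
  simp only [Function.comp]
  have hsub : face T q m ⊆ box 0 (Mm m) := by
    intro p hp
    rw [mem_face] at hp
    rw [mem_box]
    intro i
    refine ⟨Nat.zero_le _, ?_⟩
    simp only [hMm]
    split_ifs with hi
    · exact hp.1 i hi
    · rw [hp.2 i hi]; omega
  rw [← Finset.sum_subset hsub]
  · refine Finset.sum_congr rfl fun p hp => ?_
    rw [if_pos (mem_face.1 hp).2]
  · intro p hp hp'
    rw [if_neg, zero_mul]
    intro hcon
    apply hp'
    rw [mem_face]
    refine ⟨fun i hi => ?_, hcon⟩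
    have := (mem_box.1 hp i).2
    simp only [hMm] at this
    rwa [if_pos hi] at this

/-- Main theorem on a probability space with a generating sequence of independent fair bits -/
theorem exists_sequence {X : Type*} [MeasurableSpace X] {μ : Measure X} [IsProbabilityMeasure μ]
    {dg : ℕ → X → Bool} (hd : SignSystem μ dg)
    (hgen : ∀ f : X → ℝ, MemLp f 2 μ →
      (∀ (J : ℕ) (G : (Fin J → Bool) → ℝ), ∫ x, f x * G (pre dg J x) ∂μ = 0) → f =ᵐ[μ] 0) :
    ∃ ψ : ℕ → X → ℝ, (∀ n, Measurable (ψ n)) ∧ (∀ n x, |ψ n x| ≤ 5) ∧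
      (∀ n n', ∫ x, ψ n x * ψ n' x ∂μ = if n = n' then 1 else 0) ∧
      (∀ f : X → ℝ, MemLp f 2 μ → (∀ n, ∫ x, f x * ψ n x ∂μ = 0) → f =ᵐ[μ] 0) ∧
      (∀ d : ℕ, 0 < d → ∃ e : (Fin d → ℕ) ≃ ℕ, ∀ a : (Fin d → ℕ) → ℝ,
        (Summable fun p => a p ^ 2) → ∀ᵐ x ∂μ, ∀ (T : Finset (Fin d)) (q : Fin d → ℕ), ∃ s,
          Tendsto (fun m : Fin d → ℕ => ∑ p ∈ face T q m, a p * ψ (e p) x) atTop (𝓝 s)) := by
  classical
  choose H hH1 hHb using hB_bound hd
  have hH : ∀ B, 0 ≤ H B := fun B => zero_le_one.trans (hH1 B)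
  obtain ⟨E, hE1, hE2⟩ := exists_idx H hH
  obtain ⟨E0⟩ : Nonempty (ℕ ≃ ℕ × ℕ) := nonempty_equiv_of_countable
  refine ⟨fun n => phi H hH E dg (E0 n), fun n => phi_meas H hH E hd _,
    fun n => phi_bound H hH E hE1 hE2 hH1 hHb _, fun n n' => ?_, fun f hf h => ?_, fun d h1 => ?_⟩
  · rw [phi_orth H hH E hd]
    simp only [EmbeddingLike.apply_eq_iff_eq]
  · refine phi_complete H hH E hd hgen f hf fun p => ?_
    have := h (E0.symm p)
    simpa using this
  · obtain ⟨e, he1, he2⟩ := exists_eI h1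
    refine ⟨e.trans E0.symm, fun a ha => ?_⟩
    refine regular_of_pringsheim _ (fun a ha => ?_) a ha
    have := multi_converges hd H hH E hE1 hE2 h1 e he1 he2 a ha
    simpa using this

end Pool.Agent.H39.AA
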