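import Mathlib
import Pool.Agent.H39.AA.Main

/-!
# The maximal function of the partial sums is in `L²`
-/

set_option autoImplicit false

namespace Pool.Agent.H39.AA

open MeasureTheory Filter Topology
open scoped ENNReal
open Pool.Agent.Helper304.Signs Pool.Agent.Helper304.Basis Pool.Agent.Helper304.Blocks
open Pool.Agent.Helper304.MaxIneq Pool.Agent.Helper304.Assembly

lemma path_ineq (x m : ℕ → ℝ) (h0 : m 0 = x 0) (hm : ∀ k, m (k + 1) = max (m k) (x (k + 1)))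
    (n : ℕ) : ∑ k ∈ Finset.range n, m k * (x (k + 1) - x k) + m n ^ 2 / 2 ≤ m n * x n := by
  induction n with
  | zero =>
    rw [Finset.sum_range_zero, h0]
    nlinarith [sq_nonneg (x 0)]
  | succ n ih =>
    rw [Finset.sum_range_succ, hm n]
    rcases le_total (x (n + 1)) (m n) with h | h
    · rw [max_eq_left h]
      nlinarith
    · rw [max_eq_right h]
      nlinarith [sq_nonneg (x (n + 1) - m n)]

section

variable {X : Type*} [MeasurableSpace X] {μ : Measure X} [IsProbabilityMeasure μ]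
  {d : ℕ → X → Bool}

/-- running maximum of the dyadic partial sums -/
noncomputable def mx (d : ℕ → X → Bool) (A : ℕ → ℝ) : ℕ → X → ℝ
  | 0, x => |PS d A 0 x|
  | J + 1, x => max (mx d A J x) |PS d A (J + 1) x|

lemma mx_dep (d : ℕ → X → Bool) (A : ℕ → ℝ) (J : ℕ) :
    ∃ G : (Fin J → Bool) → ℝ, ∀ x, mx d A J x = G (pre d J x) := by
  induction J with
  | zero =>
    obtain ⟨G, hG⟩ := PS_dep d A 0
    exact ⟨fun w => |G w|, fun x => by rw [mx, hG]⟩
  | succ J ih =>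
    obtain ⟨G, hG⟩ := ih
    obtain ⟨G', hG'⟩ := lift_dep d (Nat.le_succ J) G
    obtain ⟨G1, hG1⟩ := PS_dep d A (J + 1)
    exact ⟨fun w => max (G' w) |G1 w|, fun x => by rw [mx, hG, hG', hG1]⟩

omit [MeasurableSpace X] in
lemma mx_nonneg (d : ℕ → X → Bool) (A : ℕ → ℝ) (J : ℕ) (x : X) : 0 ≤ mx d A J x := by
  cases J with
  | zero => exact abs_nonneg _
  | succ J => exact (abs_nonneg _).trans (le_max_right _ _)

omit [MeasurableSpace X] in
lemma le_mx (d : ℕ → X → Bool) (A : ℕ → ℝ) (J : ℕ) (x : X) : |PS d A J x| ≤ mx d A J x := by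
  cases J with
  | zero => exact le_rfl
  | succ J => exact le_max_right _ _

lemma mx_step (hd : SignSystem μ d) (A : ℕ → ℝ) (J : ℕ) :
    0 ≤ ∫ x, mx d A J x * (|PS d A (J + 1) x| - |PS d A J x|) ∂μ := by
  obtain ⟨Gm, hGm⟩ := mx_dep d A J
  obtain ⟨Ga, hGa⟩ := PS_dep d A J
  obtain ⟨Gg, hGg⟩ := PS_succ d A J
  have hm0 : ∀ x, 0 ≤ Gm (pre d J x) := fun x => by rw [← hGm]; exact mx_nonneg d A J x
  set H1 : (Fin J → Bool) → ℝ := fun w =>
    Gm w * ((|Ga w + Gg w| + |Ga w - Gg w|) / 2 - |Ga w|) with hH1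
  set H2 : (Fin J → Bool) → ℝ := fun w => Gm w * ((|Ga w + Gg w| - |Ga w - Gg w|) / 2) with hH2
  have e : ∀ x, mx d A J x * (|PS d A (J + 1) x| - |PS d A J x|) =
      H1 (pre d J x) + sg (d J x) * H2 (pre d J x) := by
    intro x
    rw [hGm, hGg, hGa]
    simp only [hH1, hH2]
    cases d J x
    · simp only [sg, Bool.false_eq_true, if_false, one_mul]
      ring
    · simp only [sg, if_true]
      rw [neg_one_mul, ← sub_eq_add_neg]
      ring
  simp only [e]
  rw [integral_add (dep_int hd J H1) (sg_dep_int hd J H2), hd.indep J H2, add_zero]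
  refine integral_nonneg fun x => ?_
  refine mul_nonneg (hm0 x) ?_
  have h1 := abs_add_le (Ga (pre d J x) + Gg (pre d J x)) (Ga (pre d J x) - Gg (pre d J x))
  have h2 : Ga (pre d J x) + Gg (pre d J x) + (Ga (pre d J x) - Gg (pre d J x)) =
      2 * Ga (pre d J x) := by ring
  rw [h2, abs_mul, abs_two] at h1
  linarith

lemma mx_int (hd : SignSystem μ d) (A : ℕ → ℝ) (n : ℕ) :
    ∫ x, mx d A n x ^ 2 ∂μ ≤ 4 * ∑ B ∈ Finset.range (2 ^ n), A B ^ 2 := by
  have hPS : ∫ x, (PS d A n x) ^ 2 ∂μ = ∑ B ∈ Finset.range (2 ^ n), A B ^ 2 := int_sq hd _ A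
  have hstep : ∀ J, Integrable (fun x => mx d A J x * (|PS d A (J + 1) x| - |PS d A J x|)) μ := by
    intro J
    obtain ⟨Gm, hGm⟩ := mx_dep d A J
    obtain ⟨Gm', hGm'⟩ := lift_dep d (Nat.le_succ J) Gm
    obtain ⟨Ga, hGa⟩ := PS_dep d A J
    obtain ⟨Ga', hGa'⟩ := lift_dep d (Nat.le_succ J) Ga
    obtain ⟨Gb, hGb⟩ := PS_dep d A (J + 1)
    have : (fun x => mx d A J x * (|PS d A (J + 1) x| - |PS d A J x|)) =
        fun x => (fun w : Fin (J + 1) → Bool => Gm' w * (|Gb w| - |Ga' w|)) (pre d (J + 1) x) := by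
      funext x
      simp only [hGm, hGm', hGb, hGa, hGa']
    rw [this]
    exact dep_int hd (J + 1) (fun w => Gm' w * (|Gb w| - |Ga' w|))
  obtain ⟨Gm, hGm⟩ := mx_dep d A n
  obtain ⟨Ga, hGa⟩ := PS_dep d A n
  have hi1 : Integrable (fun x => mx d A n x ^ 2) μ := by
    simp only [hGm]
    exact dep_int hd n (fun w => Gm w ^ 2)
  have hi2 : Integrable (fun x => PS d A n x ^ 2) μ := by
    simp only [hGa]
    exact dep_int hd n (fun w => Ga w ^ 2)
  have hp : ∀ x, ∑ k ∈ Finset.range n, mx d A k x * (|PS d A (k + 1) x| - |PS d A k x|) +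
      mx d A n x ^ 2 / 4 ≤ PS d A n x ^ 2 := by
    intro x
    have h := path_ineq (fun k => |PS d A k x|) (fun k => mx d A k x) rfl (fun k => rfl) n
    have h2 := sq_abs (PS d A n x)
    nlinarith [sq_nonneg (mx d A n x / 2 - |PS d A n x|)]
  have h3 := integral_mono (((integrable_finsetSum _ fun k _ => hstep k)).add (hi1.div_const 4))
    hi2 hp
  have h4 : ∫ x, (∑ k ∈ Finset.range n, mx d A k x * (|PS d A (k + 1) x| - |PS d A k x|) +
      mx d A n x ^ 2 / 4) ∂μ = ∑ k ∈ Finset.range n,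
        ∫ x, mx d A k x * (|PS d A (k + 1) x| - |PS d A k x|) ∂μ + (∫ x, mx d A n x ^ 2 ∂μ) / 4 := by
    rw [integral_add (integrable_finsetSum _ fun k _ => hstep k) (hi1.div_const 4),
      integral_finsetSum _ fun k _ => hstep k, integral_div]
  have h5 : 0 ≤ ∑ k ∈ Finset.range n,
      ∫ x, mx d A k x * (|PS d A (k + 1) x| - |PS d A k x|) ∂μ :=
    Finset.sum_nonneg fun k _ => mx_step hd A k
  have h6 : ∫ x, (∑ k ∈ Finset.range n, mx d A k x * (|PS d A (k + 1) x| - |PS d A k x|) +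
      mx d A n x ^ 2 / 4) ∂μ ≤ ∫ x, PS d A n x ^ 2 ∂μ := h3
  rw [h4, hPS] at h6
  linarith

/-- maximal function of the dyadic partial sums -/
noncomputable def MX (d : ℕ → X → Bool) (A : ℕ → ℝ) (x : X) : ℝ≥0∞ :=
  ⨆ n, ENNReal.ofReal (mx d A n x ^ 2)

lemma mx_meas (hd : SignSystem μ d) (A : ℕ → ℝ) (n : ℕ) : Measurable (mx d A n) := by
  obtain ⟨Gm, hGm⟩ := mx_dep d A n
  have : mx d A n = fun x => Gm (pre d n x) := funext hGm
  rw [this]
  exact dep_meas hd n Gm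

lemma MX_int (hd : SignSystem μ d) (A : ℕ → ℝ) (hA : Summable fun B => A B ^ 2) :
    ∫⁻ x, MX d A x ∂μ ≤ ENNReal.ofReal (4 * ∑' B, A B ^ 2) := by
  unfold MX
  rw [lintegral_iSup]
  · refine iSup_le fun n => ?_
    obtain ⟨Gm, hGm⟩ := mx_dep d A n
    have hi1 : Integrable (fun x => mx d A n x ^ 2) μ := by
      simp only [hGm]
      exact dep_int hd n (fun w => Gm w ^ 2)
    rw [← ofReal_integral_eq_lintegral_ofReal hi1 (ae_of_all _ fun x => sq_nonneg _)]
    refine ENNReal.ofReal_le_ofReal ((mx_int hd A n).trans ?_)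
    have := hA.sum_le_tsum (Finset.range (2 ^ n)) (fun B _ => sq_nonneg _)
    linarith
  · exact fun n => ((mx_meas hd A n).pow_const 2).ennreal_ofReal
  · refine monotone_nat_of_le_succ fun n => ?_
    intro x
    refine ENNReal.ofReal_le_ofReal ?_
    have h1 : mx d A n x ≤ mx d A (n + 1) x := le_max_left _ _
    have h2 := mx_nonneg d A n x
    gcongr

/-- maximal function inside the levels -/
noncomputable def MZ (d : ℕ → X → Bool) (A : ℕ → ℝ) (x : X) : ℝ≥0∞ :=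
  ∑' J, ENNReal.ofReal (ZQ A J (pre d J x))

lemma level_sum (A : ℕ → ℝ) (n : ℕ) :
    A 0 ^ 2 + ∑ J ∈ Finset.range n, ∑ s ∈ Finset.range (2 ^ J), A (2 ^ J + s) ^ 2 =
        ∑ B ∈ Finset.range (2 ^ n), A B ^ 2 := by
  induction n with
  | zero => simp
  | succ n ih =>
    rw [Finset.sum_range_succ, ← add_assoc, ih, pow_succ, mul_two, Finset.sum_range_add]

lemma MZ_int (hd : SignSystem μ d) (A : ℕ → ℝ) (hA : Summable fun B => A B ^ 2) :
    ∫⁻ x, MZ d A x ∂μ ≤ ENNReal.ofReal (30 * ∑' B, A B ^ 2) := by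
  unfold MZ
  rw [lintegral_tsum fun J => (dep_int hd J (ZQ A J)).aemeasurable.ennreal_ofReal]
  have h2 : ∀ J, ∫⁻ x, ENNReal.ofReal (ZQ A J (pre d J x)) ∂μ ≤
      ENNReal.ofReal (30 * ∑ s ∈ Finset.range (2 ^ J), A (2 ^ J + s) ^ 2) := by
    intro J
    rw [← ofReal_integral_eq_lintegral_ofReal (dep_int hd J (ZQ A J))
      (ae_of_all _ fun x => ZQ_nonneg A J _)]
    exact ENNReal.ofReal_le_ofReal (ZQ_int hd A J)
  have hnn : ∀ J, 0 ≤ 30 * ∑ s ∈ Finset.range (2 ^ J), A (2 ^ J + s) ^ 2 := fun J => by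
    have := Finset.sum_nonneg (s := Finset.range (2 ^ J))
      (f := fun s => A (2 ^ J + s) ^ 2) fun _ _ => sq_nonneg _
    linarith
  refine (ENNReal.tsum_le_tsum h2).trans ?_
  rw [ENNReal.tsum_eq_iSup_nat]
  refine iSup_le fun n => ?_
  rw [← ENNReal.ofReal_sum_of_nonneg fun J _ => hnn J]
  refine ENNReal.ofReal_le_ofReal ?_
  rw [← Finset.mul_sum]
  have h3 := hA.sum_le_tsum (Finset.range (2 ^ n)) (fun B _ => sq_nonneg _)
  have h4 := level_sum A n
  nlinarith [sq_nonneg (A 0)]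

lemma haar_le (d : ℕ → X → Bool) (A : ℕ → ℝ) (N : ℕ) (x : X) :
    ENNReal.ofReal ((∑ B ∈ Finset.range N, A B * hB d B x) ^ 2) ≤ 2 * MX d A x + 2 * MZ d A x := by
  by_cases hN0 : N = 0
  · subst hN0; simp
  obtain ⟨J, s, hs, rfl⟩ := exists_level hN0
  rw [Finset.sum_range_add]
  have h3 := partial_le d A J s hs.le x
  have h5 : PS d A J x = ∑ B ∈ Finset.range (2 ^ J), A B * hB d B x := rfl
  rw [← h5]
  have h6 : (PS d A J x) ^ 2 ≤ mx d A J x ^ 2 := by
    rw [← sq_abs (PS d A J x)]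
    have := le_mx d A J x
    gcongr
  have h7 : (PS d A J x + ∑ i ∈ Finset.range s, A (2 ^ J + i) * hB d (2 ^ J + i) x) ^ 2 ≤
      2 * mx d A J x ^ 2 + 2 * ZQ A J (pre d J x) := by
    nlinarith [sq_nonneg (PS d A J x - ∑ i ∈ Finset.range s, A (2 ^ J + i) * hB d (2 ^ J + i) x)]
  refine (ENNReal.ofReal_le_ofReal h7).trans ?_
  rw [ENNReal.ofReal_add (by positivity) (by have := ZQ_nonneg A J (pre d J x); positivity),
    ENNReal.ofReal_mul zero_le_two, ENNReal.ofReal_mul zero_le_two, ENNReal.ofReal_ofNat]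
  gcongr
  · exact le_iSup (fun n => ENNReal.ofReal (mx d A n x ^ 2)) J
  · exact ENNReal.le_tsum J

end

/-! ### The diagonal part -/

section

variable {X : Type*} (H : ℕ → ℝ) (hH : ∀ B, 0 ≤ H B)

open Classical in
/-- coefficients of the Haar part -/
noncomputable def Az (c : ℕ → ℝ) (B : ℕ) : ℝ := if pw B then 0 else
    ∑ k ∈ Finset.Ico (PP H hH B) (PP H hH (B + 1)), c k * UU H hH k (PP H hH B)

/-- energies of the blocks -/
noncomputable def Cz (c : ℕ → ℝ) (B : ℕ) : ℝ :=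
  ∑ k ∈ Finset.Ico (PP H hH B) (PP H hH (B + 1)), c k ^ 2

lemma Cz_nonneg (c : ℕ → ℝ) (B : ℕ) : 0 ≤ Cz H hH c B := Finset.sum_nonneg fun _ _ => sq_nonneg _

lemma Cz_sum (c : ℕ → ℝ) (hc : Summable fun k => c k ^ 2) (n : ℕ) :
    ∑ B ∈ Finset.range n, Cz H hH c B ≤ ∑' k, c k ^ 2 := by
  unfold Cz
  rw [← sum_blocks H hH (fun k => c k ^ 2) n]
  exact hc.sum_le_tsum _ (fun _ _ => sq_nonneg _)

lemma Az_sq (c : ℕ → ℝ) (B : ℕ) : Az H hH c B ^ 2 ≤ Cz H hH c B := by
  unfold Az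
  split_ifs with hpw
  · simpa using Cz_nonneg H hH c B
  · refine (Finset.sum_mul_sq_le_sq_mul_sq _ _ _).trans ?_
    have h3 := UU_cols H hH (blk_PP H hH B) (blk_PP H hH B)
    rw [if_pos rfl] at h3
    have h4 : ∑ k ∈ Finset.Ico (PP H hH B) (PP H hH (B + 1)), UU H hH k (PP H hH B) ^ 2 = 1 := by
      rw [← h3]
      exact Finset.sum_congr rfl fun _ _ => by ring
    rw [h4, mul_one]
    exact le_rfl

lemma Cz_summable (c : ℕ → ℝ) (hc : Summable fun k => c k ^ 2) : Summable (Cz H hH c) :=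
  summable_of_sum_range_le (Cz_nonneg H hH c) (Cz_sum H hH c hc)

lemma Az_summable (c : ℕ → ℝ) (hc : Summable fun k => c k ^ 2) :
    Summable fun B => Az H hH c B ^ 2 :=
  Summable.of_nonneg_of_le (fun B => sq_nonneg _) (Az_sq H hH c) (Cz_summable H hH c hc)

lemma Cz_tsum (c : ℕ → ℝ) (hc : Summable fun k => c k ^ 2) : ∑' B, Cz H hH c B ≤ ∑' k, c k ^ 2 :=
  (Cz_summable H hH c hc).tsum_le_of_sum_range_le (Cz_sum H hH c hc)

lemma Az_tsum (c : ℕ → ℝ) (hc : Summable fun k => c k ^ 2) :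
    ∑' B, Az H hH c B ^ 2 ≤ ∑' k, c k ^ 2 :=
  ((Az_summable H hH c hc).tsum_le_tsum (Az_sq H hH c) (Cz_summable H hH c hc)).trans
    (Cz_tsum H hH c hc)

lemma zz_decomp (d : ℕ → X → Bool) (c : ℕ → ℝ) (N : ℕ) (x : X) :
    ∑ k ∈ Finset.range N, c k * zz H hH d k x =
      ∑ B ∈ Finset.range (blk H hH N), Az H hH c B * hB d B x +
        ∑ k ∈ Finset.Ico (PP H hH (blk H hH N)) N, c k * zz H hH d k x := by
  classical
  have h2 : ∑ B ∈ Finset.range (blk H hH N), Az H hH c B * hB d B x =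
      ∑ k ∈ Finset.range (PP H hH (blk H hH N)), c k * zz H hH d k x := by
    rw [sum_blocks]
    refine Finset.sum_congr rfl fun B _ => ?_
    unfold Az
    split_ifs with hpw
    · rw [zero_mul]
      symm
      refine Finset.sum_eq_zero fun k hk => ?_
      rw [blk_iff] at hk
      unfold zz
      rw [hk, if_pos hpw, mul_zero]
    · rw [Finset.sum_mul]
      refine Finset.sum_congr rfl fun k hk => ?_
      rw [blk_iff] at hk
      unfold zz
      rw [hk, if_neg hpw, mul_assoc]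
  rw [h2, Finset.range_eq_Ico, Finset.range_eq_Ico,
    Finset.sum_Ico_consecutive _ (Nat.zero_le _) (blk_le H hH N)]

/-- maximal function of the diagonal part -/
noncomputable def MD (d : ℕ → X → Bool) (c : ℕ → ℝ) (x : X) : ℝ≥0∞ :=
  2 * (2 * MX d (Az H hH c) x + 2 * MZ d (Az H hH c) x) +
    2 * ∑' B, ENNReal.ofReal (Cz H hH c B * (hB d B x * hB d B x))

lemma zz_le [MeasurableSpace X] (d : ℕ → X → Bool) (c : ℕ → ℝ) (N : ℕ) (x : X) :
    ENNReal.ofReal ((∑ k ∈ Finset.range N, c k * zz H hH d k x) ^ 2) ≤ MD H hH d c x := by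
  rw [zz_decomp]
  set u := ∑ B ∈ Finset.range (blk H hH N), Az H hH c B * hB d B x with hu
  set v := ∑ k ∈ Finset.Ico (PP H hH (blk H hH N)) N, c k * zz H hH d k x with hv
  have h1 : v ^ 2 ≤ Cz H hH c (blk H hH N) * (hB d (blk H hH N) x * hB d (blk H hH N) x) :=
    zz_partial H hH c N x
  have h2 : (u + v) ^ 2 ≤ 2 * u ^ 2 +
      2 * (Cz H hH c (blk H hH N) * (hB d (blk H hH N) x * hB d (blk H hH N) x)) := by
    nlinarith [sq_nonneg (u - v)]
  have h3 : 0 ≤ Cz H hH c (blk H hH N) * (hB d (blk H hH N) x * hB d (blk H hH N) x) :=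
    (sq_nonneg v).trans h1
  refine (ENNReal.ofReal_le_ofReal h2).trans ?_
  rw [ENNReal.ofReal_add (by positivity) (by positivity),
    ENNReal.ofReal_mul zero_le_two, ENNReal.ofReal_mul zero_le_two, ENNReal.ofReal_ofNat]
  unfold MD
  gcongr
  · exact haar_le d (Az H hH c) _ x
  · exact ENNReal.le_tsum (f := fun B => ENNReal.ofReal (Cz H hH c B * (hB d B x * hB d B x)))
      (blk H hH N)

lemma MX_meas [MeasurableSpace X] {μ : Measure X} [IsProbabilityMeasure μ] {d : ℕ → X → Bool}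
    (hd : SignSystem μ d) (A : ℕ → ℝ) : Measurable (MX d A) := by
  unfold MX
  exact Measurable.iSup fun n => ((mx_meas hd A n).pow_const 2).ennreal_ofReal

lemma MZ_meas [MeasurableSpace X] {μ : Measure X} [IsProbabilityMeasure μ] {d : ℕ → X → Bool}
    (hd : SignSystem μ d) (A : ℕ → ℝ) : Measurable (MZ d A) := by
  unfold MZ
  exact Measurable.ennreal_tsum fun J => (dep_meas hd J (ZQ A J)).ennreal_ofReal

lemma MD_int [MeasurableSpace X] {μ : Measure X} [IsProbabilityMeasure μ] {d : ℕ → X → Bool}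
    (hd : SignSystem μ d) (c : ℕ → ℝ) (hc : Summable fun k => c k ^ 2) :
    ∫⁻ x, MD H hH d c x ∂μ ≤ ENNReal.ofReal (138 * ∑' k, c k ^ 2) := by
  set t := ∑' k, c k ^ 2 with ht
  have ht0 : 0 ≤ t := tsum_nonneg fun _ => sq_nonneg _
  have hA := Az_summable H hH c hc
  have hAt := Az_tsum H hH c hc
  have h1 : ∫⁻ x, MX d (Az H hH c) x ∂μ ≤ ENNReal.ofReal (4 * t) :=
    (MX_int hd _ hA).trans (ENNReal.ofReal_le_ofReal (by linarith))
  have h2 : ∫⁻ x, MZ d (Az H hH c) x ∂μ ≤ ENNReal.ofReal (30 * t) :=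
    (MZ_int hd _ hA).trans (ENNReal.ofReal_le_ofReal (by linarith))
  have hm : ∀ B, Measurable fun x => ENNReal.ofReal (Cz H hH c B * (hB d B x * hB d B x)) :=
    fun B => (((hB_meas hd B).mul (hB_meas hd B)).const_mul _).ennreal_ofReal
  have h3 : ∫⁻ x, ∑' B, ENNReal.ofReal (Cz H hH c B * (hB d B x * hB d B x)) ∂μ ≤
      ENNReal.ofReal t := by
    rw [lintegral_tsum fun B => (hm B).aemeasurable]
    have h4 : ∀ B, ∫⁻ x, ENNReal.ofReal (Cz H hH c B * (hB d B x * hB d B x)) ∂μ =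
        ENNReal.ofReal (Cz H hH c B) := by
      intro B
      rw [← ofReal_integral_eq_lintegral_ofReal ((hB_mul_int hd B B).const_mul _)
        (ae_of_all _ fun x => mul_nonneg (Cz_nonneg H hH c B) (mul_self_nonneg _)),
        integral_const_mul, hB_orth hd, if_pos rfl, mul_one]
    simp only [h4]
    rw [← ENNReal.ofReal_tsum_of_nonneg (Cz_nonneg H hH c) (Cz_summable H hH c hc)]
    exact ENNReal.ofReal_le_ofReal (Cz_tsum H hH c hc)
  have hm1 : Measurable fun x => 2 * MX d (Az H hH c) x + 2 * MZ d (Az H hH c) x :=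
    ((MX_meas hd _).const_mul 2).add ((MZ_meas hd _).const_mul 2)
  have hm2 : Measurable fun x => ∑' B, ENNReal.ofReal (Cz H hH c B * (hB d B x * hB d B x)) :=
    Measurable.ennreal_tsum hm
  have hm3 : Measurable fun x => 2 * MZ d (Az H hH c) x := (MZ_meas hd _).const_mul 2
  unfold MD
  rw [lintegral_add_right _ (hm2.const_mul 2), lintegral_const_mul _ hm1,
    lintegral_const_mul _ hm2, lintegral_add_right _ hm3,
    lintegral_const_mul _ (MX_meas hd _), lintegral_const_mul _ (MZ_meas hd _)]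
  calc 2 * (2 * ∫⁻ x, MX d (Az H hH c) x ∂μ + 2 * ∫⁻ x, MZ d (Az H hH c) x ∂μ) +
      2 * ∫⁻ x, ∑' B, ENNReal.ofReal (Cz H hH c B * (hB d B x * hB d B x)) ∂μ
      ≤ 2 * (2 * ENNReal.ofReal (4 * t) + 2 * ENNReal.ofReal (30 * t)) +
        2 * ENNReal.ofReal t := by gcongr
    _ = ENNReal.ofReal (138 * t) := by
        have h2' : (2 : ℝ≥0∞) = ENNReal.ofReal 2 := by rw [ENNReal.ofReal_ofNat]
        rw [h2', ← ENNReal.ofReal_mul zero_le_two, ← ENNReal.ofReal_mul zero_le_two,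
          ← ENNReal.ofReal_add (by positivity) (by positivity),
          ← ENNReal.ofReal_mul zero_le_two, ← ENNReal.ofReal_mul zero_le_two,
          ← ENNReal.ofReal_add (by positivity) (by positivity)]
        congr 1
        ring

end

/-! ### All together -/

lemma sq_le_four {w t : ℝ≥0∞} (ht : t ≠ 0) (ht' : t ≠ ⊤) : w ^ 2 ≤ w ^ 4 / t + t := by
  rcases le_total (w ^ 2) t with h | h
  · exact h.trans le_add_self
  · refine le_trans ?_ le_self_add
    rw [ENNReal.le_div_iff_mul_le (Or.inl ht) (Or.inl ht')]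
    calc w ^ 2 * t ≤ w ^ 2 * w ^ 2 := by gcongr
      _ = w ^ 4 := by ring

variable {dd : ℕ}

lemma trd_zero (h1 : 0 < dd) (a : (Fin dd → ℕ) → ℝ) : trd a 0 = a := by
  funext p
  unfold trd
  rw [if_neg]
  intro h
  exact absurd (h ⟨0, h1⟩) (Nat.not_lt_zero _)

lemma S_le_Wd {X : Type*} [MeasurableSpace X] (h1 : 0 < dd) (y : (Fin dd → ℕ) → X → ℝ) (a : (Fin dd → ℕ) → ℝ)
    (n : Fin dd → ℕ) (x : X) : ‖S y a 0 n x‖ₑ ≤ Wd y a 0 x := by
  have := Wd_le (y := y) a 0 n (fun _ => Nat.zero_le _) x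
  have h0 : S y a 0 (fun _ => 0) x = 0 := by
    unfold S
    refine Finset.sum_eq_zero fun p hp => ?_
    rw [mem_box] at hp
    exact absurd (hp ⟨0, h1⟩).2 (Nat.not_lt_zero _)
  rwa [h0, sub_zero] at this

theorem maximal_ineq {X : Type*} [MeasurableSpace X] {μ : Measure X} [IsProbabilityMeasure μ]
    {dg : ℕ → X → Bool} (hd : SignSystem μ dg) (H : ℕ → ℝ) (hH : ∀ B, 0 ≤ H B)
    (E : ℕ × ℕ ≃ ℕ) (hE1 : ∀ B, ¬ pw B → E (PP H hH B, PP H hH B) = B)
    (hE2 : ∀ q, (¬ ∃ B, ¬ pw B ∧ q = (PP H hH B, PP H hH B)) → pw (E q))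
    (h1 : 0 < dd) (e : (Fin dd → ℕ) ≃ ℕ × ℕ) (he1 : ∀ k, e (ch dd k) = (k, k))
    (he2 : ∀ p, (∀ k, p ≠ ch dd k) → (e p).1 ≠ (e p).2) (a : (Fin dd → ℕ) → ℝ)
    (ha : Summable fun p => a p ^ 2) :
    ∫⁻ x, ⨆ m : Fin dd → ℕ,
      ENNReal.ofReal ((∑ p ∈ box 0 m, a p * phi H hH E dg (e p) x) ^ 2) ∂μ ≤
        ENNReal.ofReal (7 * 2000 ^ dd * ∑' p, a p ^ 2) := by
  set t := ∑' p, a p ^ 2 with ht
  have ht0 : 0 ≤ t := tsum_nonneg fun _ => sq_nonneg _
  rcases eq_or_lt_of_le ht0 with hz | hpos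
  · have ha0 : ∀ p, a p = 0 := by
      intro p
      have h2 := ha.le_tsum p (fun _ _ => sq_nonneg _)
      have h3 : a p ^ 2 ≤ 0 := by rw [hz]; exact h2
      exact pow_eq_zero_iff (two_ne_zero) |>.1 (le_antisymm h3 (sq_nonneg _))
    simp [ha0]
  set y : (Fin dd → ℕ) → X → ℝ := fun p => yy H hH E dg (e p) with hy
  set c : ℕ → ℝ := fun k => a (ch dd k) with hcdef
  have hc : Summable fun k => c k ^ 2 := ha.comp_injective (i := ch dd) (ch_inj h1)
  have hct : ∑' k, c k ^ 2 ≤ t := by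
    refine hc.tsum_le_of_sum_range_le fun n => ?_
    have h2 : ∑ k ∈ Finset.range n, c k ^ 2 = ∑ p ∈ (Finset.range n).map ⟨ch dd, ch_inj h1⟩,
        a p ^ 2 := by
      rw [Finset.sum_map]
      rfl
    rw [h2]
    exact ha.sum_le_tsum _ fun _ _ => sq_nonneg _
  have hymeas : ∀ p, Measurable (y p) := fun p => yy_meas H hH E hd (e p)
  have h4 : FourMI μ y := fourMI_comp (fourM_y H hH E hd) e
  have hW : ∫⁻ x, (Wd y a 0 x) ^ 4 ∂μ ≤ ENNReal.ofReal (2000 ^ dd * 3 * t ^ 2) := by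
    refine Wd_bound hymeas h4 a 0 t fun s => ?_
    rw [trd_zero h1]
    exact ha.sum_le_tsum _ fun _ _ => sq_nonneg _
  have hWm := Wd_meas hymeas a 0
  have hpt : ∀ x, (⨆ m : Fin dd → ℕ,
      ENNReal.ofReal ((∑ p ∈ box 0 m, a p * phi H hH E dg (e p) x) ^ 2)) ≤
        2 * ((Wd y a 0 x) ^ 4 / ENNReal.ofReal t + ENNReal.ofReal t) + 2 * MD H hH dg c x := by
    intro x
    refine iSup_le fun m => ?_
    have h2 : ∑ p ∈ box 0 m, a p * phi H hH E dg (e p) x =
        S y a 0 m x + ∑ k ∈ Finset.range (Kn h1 m), c k * zz H hH dg k x := by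
      rw [← sum_chain h1 e he1 he2 a (fun k => zz H hH dg k x) m]
      unfold S
      rw [← Finset.sum_add_distrib]
      refine Finset.sum_congr rfl fun p _ => ?_
      rw [phi_eq H hH E dg hE1 hE2]
      simp only [hy]
      ring
    rw [h2]
    set u := S y a 0 m x with hu
    set v := ∑ k ∈ Finset.range (Kn h1 m), c k * zz H hH dg k x with hv
    have h3 : (u + v) ^ 2 ≤ 2 * u ^ 2 + 2 * v ^ 2 := by nlinarith [sq_nonneg (u - v)]
    refine (ENNReal.ofReal_le_ofReal h3).trans ?_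
    rw [ENNReal.ofReal_add (by positivity) (by positivity),
      ENNReal.ofReal_mul zero_le_two, ENNReal.ofReal_mul zero_le_two, ENNReal.ofReal_ofNat]
    gcongr
    · have h5 : ENNReal.ofReal (u ^ 2) = ‖u‖ₑ ^ 2 := by
        rw [← sq_abs, ENNReal.ofReal_pow (abs_nonneg _), Real.enorm_eq_ofReal_abs]
      rw [h5]
      have h6 : ‖u‖ₑ ≤ Wd y a 0 x := S_le_Wd h1 y a m x
      refine le_trans (by gcongr) (sq_le_four (w := Wd y a 0 x) ?_ ENNReal.ofReal_ne_top)
      rw [Ne, ENNReal.ofReal_eq_zero, not_le]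
      exact hpos
    · exact zz_le H hH dg c _ x
  refine (lintegral_mono hpt).trans ?_
  have hMDm : Measurable (MD H hH dg c) := by
    unfold MD
    refine ((((MX_meas hd _).const_mul 2).add ((MZ_meas hd _).const_mul 2)).const_mul 2).add
      ((Measurable.ennreal_tsum fun B =>
        (((hB_meas hd B).mul (hB_meas hd B)).const_mul _).ennreal_ofReal).const_mul 2)
  have hm1 : Measurable fun x => (Wd y a 0 x) ^ 4 / ENNReal.ofReal t + ENNReal.ofReal t :=
    ((hWm.pow_const 4).div_const _).add measurable_const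
  rw [lintegral_add_right _ (hMDm.const_mul 2), lintegral_const_mul _ hm1,
    lintegral_const_mul _ hMDm, lintegral_add_right _ measurable_const, lintegral_const,
    measure_univ, mul_one]
  have h7 : ∫⁻ x, (Wd y a 0 x) ^ 4 / ENNReal.ofReal t ∂μ ≤
      ENNReal.ofReal (2000 ^ dd * 3 * t) := by
    simp only [div_eq_mul_inv]
    rw [lintegral_mul_const _ (hWm.pow_const 4)]
    calc (∫⁻ x, (Wd y a 0 x) ^ 4 ∂μ) * (ENNReal.ofReal t)⁻¹
        ≤ ENNReal.ofReal (2000 ^ dd * 3 * t ^ 2) * (ENNReal.ofReal t)⁻¹ := by gcongr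
      _ = ENNReal.ofReal (2000 ^ dd * 3 * t) := by
          rw [← ENNReal.ofReal_inv_of_pos hpos, ← ENNReal.ofReal_mul (by positivity)]
          congr 1
          field_simp
  have h8 : ∫⁻ x, MD H hH dg c x ∂μ ≤ ENNReal.ofReal (138 * t) :=
    (MD_int H hH hd c hc).trans (ENNReal.ofReal_le_ofReal (by linarith))
  calc 2 * (∫⁻ x, (Wd y a 0 x) ^ 4 / ENNReal.ofReal t ∂μ + ENNReal.ofReal t) +
      2 * ∫⁻ x, MD H hH dg c x ∂μ
      ≤ 2 * (ENNReal.ofReal (2000 ^ dd * 3 * t) + ENNReal.ofReal t) +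
        2 * ENNReal.ofReal (138 * t) := by gcongr
    _ = ENNReal.ofReal (2 * (2000 ^ dd * 3 * t + t) + 2 * (138 * t)) := by
        have h2' : (2 : ℝ≥0∞) = ENNReal.ofReal 2 := by rw [ENNReal.ofReal_ofNat]
        rw [h2', ← ENNReal.ofReal_add (by positivity) ht0, ← ENNReal.ofReal_mul zero_le_two,
          ← ENNReal.ofReal_mul zero_le_two, ← ENNReal.ofReal_add (by positivity) (by positivity)]
    _ ≤ ENNReal.ofReal (7 * 2000 ^ dd * t) := by
        refine ENNReal.ofReal_le_ofReal ?_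
        have h9 : (2000 : ℝ) ≤ 2000 ^ dd := by
          calc (2000 : ℝ) = 2000 ^ 1 := (pow_one _).symm
            _ ≤ 2000 ^ dd := pow_le_pow_right₀ (by norm_num) h1
        nlinarith

/-- Main theorem with the maximal inequality -/
theorem exists_sequence_max {X : Type*} [MeasurableSpace X] {μ : Measure X}
    [IsProbabilityMeasure μ] {dg : ℕ → X → Bool} (hd : SignSystem μ dg)
    (hgen : ∀ f : X → ℝ, MemLp f 2 μ →
      (∀ (J : ℕ) (G : (Fin J → Bool) → ℝ), ∫ x, f x * G (pre dg J x) ∂μ = 0) → f =ᵐ[μ] 0) :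
    ∃ ψ : ℕ → X → ℝ, (∀ n, Measurable (ψ n)) ∧ (∀ n x, |ψ n x| ≤ 5) ∧
      (∀ n n', ∫ x, ψ n x * ψ n' x ∂μ = if n = n' then 1 else 0) ∧
      (∀ f : X → ℝ, MemLp f 2 μ → (∀ n, ∫ x, f x * ψ n x ∂μ = 0) → f =ᵐ[μ] 0) ∧
      (∀ d : ℕ, 0 < d → ∃ e : (Fin d → ℕ) ≃ ℕ, ∀ a : (Fin d → ℕ) → ℝ,
        (Summable fun p => a p ^ 2) →
        (∀ᵐ x ∂μ, ∀ (T : Finset (Fin d)) (q : Fin d → ℕ), ∃ s,
          Tendsto (fun m : Fin d → ℕ => ∑ p ∈ face T q m, a p * ψ (e p) x) atTop (𝓝 s)) ∧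
        ∫⁻ x, ⨆ m : Fin d → ℕ,
          ENNReal.ofReal ((∑ p ∈ face Finset.univ 0 m, a p * ψ (e p) x) ^ 2) ∂μ ≤
            ENNReal.ofReal (7 * 2000 ^ d * ∑' p, a p ^ 2)) := by
  classical
  choose H hH1 hHb using hB_bound hd
  have hH : ∀ B, 0 ≤ H B := fun B => zero_le_one.trans (hH1 B)
  obtain ⟨E, hE1, hE2⟩ := exists_idx H hH
  obtain ⟨E0⟩ : Nonempty (ℕ ≃ ℕ × ℕ) := nonempty_equiv_of_countable
  refine ⟨fun n => phi H hH E dg (E0 n), fun n => phi_meas H hH E hd _,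
    fun n => phi_bound H hH E hE1 hE2 hH1 hHb _, fun n n' => ?_, fun f hf h => ?_, fun d h1 => ?_⟩
  · rw [phi_orth H hH E hd]
    simp only [EmbeddingLike.apply_eq_iff_eq]
  · refine phi_complete H hH E hd hgen f hf fun p => ?_
    have := h (E0.symm p)
    simpa using this
  · obtain ⟨e, he1, he2⟩ := exists_eI h1
    refine ⟨e.trans E0.symm, fun a ha => ⟨?_, ?_⟩⟩
    · refine regular_of_pringsheim _ (fun a ha => ?_) a ha
      have := multi_converges hd H hH E hE1 hE2 h1 e he1 he2 a ha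
      simpa using this
    · have h3 : ∀ m : Fin d → ℕ, face (Finset.univ : Finset (Fin d)) 0 m = box 0 m := by
        intro m
        ext p
        rw [mem_face, mem_box]
        simp
      have := maximal_ineq hd H hH E hE1 hE2 h1 e he1 he2 a ha
      simpa [h3] using this

end Pool.Agent.H39.AA
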